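import Mathlib
import Pool.Agent.Lib.MP_bd3523_gt.Defs
import Pool.Agent.Lib.MP_bd3523_gt.NullSet

/-!
For every smooth surface `S` and every `f` in `Homeo^1(S)`, the non-differentiable set of `f` has
measure zero.
-/

open scoped Manifold ContDiff
open Pool.Agent.Lib.MP_bd3523_gt

namespace Pool.Agent.Results.MP_bd3523_gt.NonDiffSetNull

/-- The non-differentiable set of every `f` in `Homeo^1(S)` has measure zero, for every smooth
surface `S`. -/
theorem result {S : Type*} [TopologicalSpace S] [ChartedSpace (ℝ × ℝ) S]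
    [IsManifold 𝓘(ℝ, ℝ × ℝ) ∞ S] (f : S ≃ₜ S) (hf : IsHomeo1 f) :
    ¬ HasPositiveMeasure (nonDiffSet f) := by
  rintro ⟨φ, hφ, hpos⟩
  rw [nonDiffSet_null hf hφ] at hpos
  exact lt_irrefl _ hpos

end Pool.Agent.Results.MP_bd3523_gt.NonDiffSetNull
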