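import Mathlib
import Pool.Agent.Lib.MP_bd3523_gt.Defs
import Pool.Agent.Lib.MP_bd3523_gt.CantorPoints

/-!
There is a homeomorphism of the plane in `Homeo^1` with uncountably many non-differentiable points.
-/

open scoped Manifold ContDiff
open Pool.Agent.Lib.MP_bd3523_gt

namespace Pool.Agent.Results.MP_bd3523_gt.UncountableNonDiff

lemma isC1Curve_iff_plane {C : Set (ℝ × ℝ)} :
    @IsC1Curve (ℝ × ℝ) _ (chartedSpaceSelf (ℝ × ℝ)) C ↔ PlaneC1Curve C := by
  unfold PlaneC1Curve IsC1Curve
  constructor
  · rintro ⟨γ, h1, h3, h2, h4⟩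
    refine ⟨γ, contMDiff_iff_contDiff.1 h1, fun t h0 => h2 t ?_, h3, h4⟩
    rw [mfderiv_eq_fderiv]
    have hd : DifferentiableAt ℝ γ t :=
      ((contMDiff_iff_contDiff.1 h1).differentiable (by norm_num)) t
    have := hd.hasDerivAt
    rw [h0] at this
    rw [this.hasFDerivAt.fderiv]
    exact ContinuousLinearMap.toSpanSingleton_zero ..
  · rintro ⟨γ, h1, h2, h3, h4⟩
    refine ⟨γ, contMDiff_iff_contDiff.2 h1, h3, fun t h0 => h2 t ?_, h4⟩
    rw [mfderiv_eq_fderiv] at h0
    rw [← fderiv_apply_one_eq_deriv]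
    exact congrArg (fun L : ℝ →L[ℝ] ℝ × ℝ => L 1) h0

/-- Linear changes of coordinates preserve closed `C^1` curves. -/
lemma planeC1Curve_linear {E F : Type*} [NormedAddCommGroup E] [NormedSpace ℝ E]
    [NormedAddCommGroup F] [NormedSpace ℝ F] (L : E ≃L[ℝ] F) {C : Set E} (hC : PlaneC1Curve C) :
    PlaneC1Curve (L '' C) := by
  obtain ⟨γ, h1, h2, h3, rfl⟩ := hC
  refine ⟨fun t => L (γ t), L.contDiff.comp h1, fun t h0 => h2 t ?_, fun s t => ?_, ?_⟩
  · have hd : HasDerivAt γ (deriv γ t) t := (h1.differentiable (by norm_num) t).hasDerivAt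
    have hd' : HasDerivAt (fun t => L (γ t)) (L (deriv γ t)) t := L.hasFDerivAt.comp_hasDerivAt t hd
    rw [hd'.deriv] at h0
    exact (map_eq_zero_iff L L.injective).1 h0
  · rw [L.injective.eq_iff, h3]
  · rw [← Set.range_comp]
    rfl

/-- There are a smooth surface `S` and an element `f` of `Homeo^1(S)` whose non-differentiable set
is uncountable. -/
theorem result : ∃ (S : Type) (_ : TopologicalSpace S) (_ : ChartedSpace (ℝ × ℝ) S)
    (_ : IsManifold 𝓘(ℝ, ℝ × ℝ) ∞ S) (_ : T2Space S) (_ : SecondCountableTopology S)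
    (_ : ConnectedSpace S) (f : S ≃ₜ S), IsHomeo1 f ∧ ¬ (nonDiffSet f).Countable := by
  have hw : ‖(1 : ℂ)‖ = 1 := norm_one
  let L : ℂ ≃L[ℝ] ℝ × ℝ := Complex.equivRealProdCLM
  let f : ℝ × ℝ ≃ₜ ℝ × ℝ := (L.symm.toHomeomorph.trans (FF hw)).trans L.toHomeomorph
  have hf : ∀ x, f x = L (FF hw (L.symm x)) := fun x => rfl
  have hfs : ∀ x, f.symm x = L ((FF hw).symm (L.symm x)) := fun x => rfl
  refine ⟨ℝ × ℝ, inferInstance, chartedSpaceSelf _, inferInstance, inferInstance, inferInstance,
    inferInstance, f, ?_, ?_⟩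
  · intro C hC
    rw [isC1Curve_iff_plane] at hC
    rw [isC1Curve_iff_plane, isC1Curve_iff_plane]
    constructor
    · have h1 := planeC1Curve_linear L (FF_image hw (planeC1Curve_linear L.symm hC))
      have e : f '' C = L '' (FF hw '' (L.symm '' C)) := by
        rw [Set.image_image, Set.image_image]
        rfl
      rw [e]
      exact h1
    · have h1 := planeC1Curve_linear L (FF_symm_image hw (planeC1Curve_linear L.symm hC))
      have e : f.symm '' C = L '' ((FF hw).symm '' (L.symm '' C)) := by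
        rw [Set.image_image, Set.image_image]
        rfl
      rw [e]
      exact h1
  · intro hcount
    apply uncountable_nondiff hw
    -- transport the non-differentiable points
    have hsub : {p : ℂ | ¬ DifferentiableAt ℝ (FF hw) p} ⊆ L.symm '' (nonDiffSet f) := by
      intro p hp
      refine ⟨L p, ?_, L.symm_apply_apply p⟩
      intro hd
      apply hp
      have hd' : DifferentiableAt ℝ f (L p) := mdifferentiableAt_iff_differentiableAt.1 hd
      have h1 : DifferentiableAt ℝ (fun x => f (L x)) p :=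
        hd'.comp p L.differentiableAt
      have h2 : DifferentiableAt ℝ (fun x => L.symm (f (L x))) p :=
        L.symm.differentiableAt.comp p h1
      have e : (fun x => L.symm (f (L x))) = FF hw := by
        funext x
        rw [hf, L.symm_apply_apply, L.symm_apply_apply]
      rwa [e] at h2
    exact (hcount.image _).mono hsub

end Pool.Agent.Results.MP_bd3523_gt.UncountableNonDiff
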